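import Pool.Agent.H.MP_68e822_an.A

namespace Pool.Agent.Results.MP_68e822_an.No

open Pool.Agent.H.MP_68e822_an Filter Topology

/-- functions whose graph has Assouad dimension below two -/
def Low (ω : ℝ → ℝ) : Set (Cw ω) := {p | dimA (graph p) < 2}

/-- functions whose graph has Assouad dimension two -/
def Full (ω : ℝ → ℝ) : Set (Cw ω) := {p | dimA (graph p) = 2}

/-- meagre subsets of the function space -/
def Meagre (ω : ℝ → ℝ) (A : Set (Cw ω)) : Prop := IsMeagre A

/-- residual subsets of the function space -/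
def Resid (ω : ℝ → ℝ) (A : Set (Cw ω)) : Prop := A ∈ residual (Cw ω)

theorem result : ∃ ω : ℝ → ℝ, IsMod ω ∧ Tendsto (fun t => ω t / t) (𝓝[>] 0) atTop ∧
    ¬ Meagre ω (Low ω) ∧ ¬ Resid ω (Full ω) := by
  unfold Meagre Resid Low Full
  obtain ⟨β, hβ, U, hU, hne, h⟩ := main
  have : CompleteSpace (Cw Real.sqrt) := (closed _).completeSpace_coe
  have key : ∀ p ∈ U, dimA (graph p) < 2 := fun p hp =>
    (iInf₂_le_of_le β (h p hp) le_rfl).trans_lt (by exact_mod_cast hβ)
  refine ⟨Real.sqrt, isMod_sqrt, ?_, fun hm => not_isMeagre_of_isOpen hU hne (hm.mono key),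
    fun hm => ?_⟩
  · simp only [Real.sqrt_div_self']
    simp only [one_div]
    refine tendsto_inv_nhdsGT_zero.comp (tendsto_nhdsWithin_iff.2 ⟨isMod_sqrt.2.2.2.1, ?_⟩)
    filter_upwards [self_mem_nhdsWithin] with t ht using Real.sqrt_pos.2 ht
  · obtain ⟨p, h1, h2⟩ := (dense_of_mem_residual hm).inter_open_nonempty U hU hne
    exact (key p h1).ne h2

end Pool.Agent.Results.MP_68e822_an.No
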